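import Pool.Agent.ECD.AlgDefs

/-!
# Families of groups whose elements are represented, not uniquely, by vectors over `ℤ/m`

`vc m d z`: the vector with the digits of `z` in base `m`. `CovFam r d e τ`: a family of groups `G v`,
`v ∈ ℕ^r`; the elements of `G v` are represented by the vectors in a set `X v` of vectors over `ℤ/m v`,
`cls v x` is the element represented by `x`. Multiplication of representatives is given piecewise by
polynomials with integer coefficients in the coordinates and in parameters `c v`; the piece is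
determined by the vanishing of the polynomials `T`. Membership in `X v` and equality of classes are
bounded formulas in the codes.

In comparison with `AlgFam`: representatives need not be unique (not even up to units), the law is
only needed for vectors in `X v`.
-/

set_option autoImplicit false

namespace Pool.Agent.Cov

open Finset Pool.Agent.Grz Pool.Agent.GAvg Pool.Agent.PTr Pool.Agent.MTr Pool.Agent.LPC
  Pool.Agent.ECD

/-- the vector with the digits of `z` -/
def vc (m d z : ℕ) : Fin d → ZMod m := fun i => ((z / m ^ (i : ℕ) : ℕ) : ZMod m)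

/-- A family of groups whose elements are represented, not uniquely, by vectors over `ℤ/m`. -/
structure CovFam (r d e τ : ℕ) where
  /-- the groups -/
  G : (Fin r → ℕ) → Type
  grp : ∀ v, Group (G v)
  /-- the modulus -/
  m : (Fin r → ℕ) → ℕ
  hm : DFun r m
  mpos : ∀ v, 0 < m v
  /-- the parameters -/
  c : Fin e → (Fin r → ℕ) → ℕ
  hc : ∀ k, DFun r (c k)
  /-- the representatives -/
  X : ∀ v, Set (Fin d → ZMod (m v))
  /-- the element that is represented by a vector -/
  cls : ∀ v, (Fin d → ZMod (m v)) → G v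
  onto : ∀ v g, ∃ x ∈ X v, cls v x = g
  /-- the polynomials which determine the piece -/
  T : Fin τ → MvPolynomial (Fin d ⊕ Fin d ⊕ Fin e) ℤ
  /-- the law on the pieces -/
  F : (Fin τ → Prop) → Law d e
  law : ∀ v (x y : Fin d → ZMod (m v)), x ∈ X v → y ∈ X v →
    (F (pat T (fun k => (c k v : ZMod (m v))) x y)).ev (fun k => (c k v : ZMod (m v))) x y ∈ X v ∧
    cls v ((F (pat T (fun k => (c k v : ZMod (m v))) x y)).ev
      (fun k => (c k v : ZMod (m v))) x y) = (letI := grp v; cls v x * cls v y)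
  /-- the codes of representatives are definable -/
  dX : Delta0 (r + 1) (fun w => vc (m fun i => w i.succ) d (w 0) ∈ X (fun i => w i.succ))
  /-- equality of classes of representatives is definable -/
  dE : Delta0 (r + 1 + 1) (fun w =>
    vc (m fun i => w i.succ.succ) d (w 0) ∈ X (fun i => w i.succ.succ) ∧
    vc (m fun i => w i.succ.succ) d (w 1) ∈ X (fun i => w i.succ.succ) ∧
    cls (fun i => w i.succ.succ) (vc (m fun i => w i.succ.succ) d (w 0)) =
      cls (fun i => w i.succ.succ) (vc (m fun i => w i.succ.succ) d (w 1)))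

attribute [instance] CovFam.grp

/-- the code of a vector -/
def vcode {m d : ℕ} (x : Fin d → ZMod m) : ℕ := ∑ i : Fin d, (x i).val * m ^ (i : ℕ)

theorem vcode_range {m d : ℕ} (x : Fin d → ZMod m) :
    vcode x = ∑ i ∈ range d, (if h : i < d then (x ⟨i, h⟩).val else 0) * m ^ i := by
  rw [vcode, ← Fin.sum_univ_eq_sum_range
    (fun i => (if h : i < d then (x ⟨i, h⟩).val else 0) * m ^ i)]
  refine Finset.sum_congr rfl fun i _ => ?_
  rw [dif_pos i.isLt]

theorem vcode_lt {m d : ℕ} (hm : 0 < m) (x : Fin d → ZMod m) : vcode x < m ^ d := by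
  have : NeZero m := ⟨hm.ne'⟩
  rw [vcode_range]
  refine GAvg.sum_lt hm (fun i => if h : i < d then (x ⟨i, h⟩).val else 0) ?_
  intro j hj
  rw [dif_pos hj]
  exact ZMod.val_lt _

theorem vc_vcode {m d : ℕ} (hm : 0 < m) (x : Fin d → ZMod m) : vc m d (vcode x) = x := by
  have : NeZero m := ⟨hm.ne'⟩
  funext i
  rw [vc]
  have h1 := dig_sum (q := m) (m := d) hm (fun i => if h : i < d then (x ⟨i, h⟩).val else 0) (by
    intro j hj
    rw [dif_pos hj]
    exact ZMod.val_lt _) i.isLt
  rw [← vcode_range, dif_pos i.isLt, Fin.eta] at h1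
  rw [← ZMod.natCast_mod]
  have h2 : vcode x / m ^ (i : ℕ) % m = (x i).val := h1
  rw [h2, ZMod.natCast_zmod_val]

variable {r d e τ : ℕ} (Φ : CovFam r d e τ)

theorem CovFam.exists_code (v : Fin r → ℕ) (g : Φ.G v) :
    ∃ z, vc (Φ.m v) d z ∈ Φ.X v ∧ Φ.cls v (vc (Φ.m v) d z) = g := by
  obtain ⟨x, hx, h⟩ := Φ.onto v g
  refine ⟨vcode x, ?_⟩
  rw [vc_vcode (Φ.mpos v)]
  exact ⟨hx, h⟩

open scoped Classical in
/-- the code of an element: the least code of a representative -/
noncomputable def CovFam.enc (v : Fin r → ℕ) (g : Φ.G v) : ℕ := Nat.find (Φ.exists_code v g)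

theorem CovFam.enc_spec (v : Fin r → ℕ) (g : Φ.G v) : vc (Φ.m v) d (Φ.enc v g) ∈ Φ.X v ∧
    Φ.cls v (vc (Φ.m v) d (Φ.enc v g)) = g := by
  classical
  unfold CovFam.enc
  convert Nat.find_spec (Φ.exists_code v g)

theorem CovFam.enc_min (v : Fin r → ℕ) (g : Φ.G v) {z : ℕ} (h1 : vc (Φ.m v) d z ∈ Φ.X v)
    (h2 : Φ.cls v (vc (Φ.m v) d z) = g) : Φ.enc v g ≤ z := by
  classical
  unfold CovFam.enc
  convert Nat.find_min' (Φ.exists_code v g) ⟨h1, h2⟩

theorem CovFam.enc_inj (v : Fin r → ℕ) : Function.Injective (Φ.enc v) := by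
  intro g h e
  rw [← (Φ.enc_spec v g).2, ← (Φ.enc_spec v h).2, e]

theorem CovFam.enc_lt (v : Fin r → ℕ) (g : Φ.G v) : Φ.enc v g < Φ.m v ^ d := by
  obtain ⟨x, hx, h⟩ := Φ.onto v g
  refine (Φ.enc_min v g (z := vcode x) ?_ ?_).trans_lt (vcode_lt (Φ.mpos v) x)
  · rwa [vc_vcode (Φ.mpos v)]
  · rwa [vc_vcode (Φ.mpos v)]

/-- the codes of the elements are definable -/
theorem CovFam.mem : Delta0 (r + 1) (fun w => ∃ g, Φ.enc (fun i => w i.succ) g = w 0) := by
  have h1 : Delta0 (r + 1) (fun w => ∀ z, z ≤ w 0 → (z < w 0 →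
      ¬ (vc (Φ.m fun i => w i.succ) d z ∈ Φ.X (fun i => w i.succ) ∧
        vc (Φ.m fun i => w i.succ) d (w 0) ∈ Φ.X (fun i => w i.succ) ∧
        Φ.cls (fun i => w i.succ) (vc (Φ.m fun i => w i.succ) d z) =
          Φ.cls (fun i => w i.succ) (vc (Φ.m fun i => w i.succ) d (w 0))))) := by
    refine Delta0.ballFun (P := fun z w => z < w 0 →
      ¬ (vc (Φ.m fun i => w i.succ) d z ∈ Φ.X (fun i => w i.succ) ∧
        vc (Φ.m fun i => w i.succ) d (w 0) ∈ Φ.X (fun i => w i.succ) ∧
        Φ.cls (fun i => w i.succ) (vc (Φ.m fun i => w i.succ) d z) =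
          Φ.cls (fun i => w i.succ) (vc (Φ.m fun i => w i.succ) d (w 0)))) (DFun.proj 0) ?_
    exact (Delta0.ltFun (DFun.proj 0) (DFun.proj 1)).imp Φ.dE.not
  refine (Φ.dX.and h1).of_iff fun w => ?_
  constructor
  · rintro ⟨g, hg⟩
    have h2 := Φ.enc_spec (fun i => w i.succ) g
    rw [hg] at h2
    refine ⟨h2.1, fun z _ hz h3 => ?_⟩
    have h4 := Φ.enc_min (fun i => w i.succ) g h3.1 (h3.2.2.trans h2.2)
    rw [hg] at h4
    omega
  · rintro ⟨h2, h3⟩
    refine ⟨Φ.cls _ (vc (Φ.m fun i => w i.succ) d (w 0)), ?_⟩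
    have h4 := Φ.enc_min (fun i => w i.succ) _ h2 rfl
    have h5 := Φ.enc_spec (fun i => w i.succ) (Φ.cls _ (vc (Φ.m fun i => w i.succ) d (w 0)))
    by_contra h6
    exact h3 _ h4 (lt_of_le_of_ne h4 h6) ⟨h5.1, h2, h5.2⟩

end Pool.Agent.Cov
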