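import Pool.Agent.ECD.GProd

/-!
# Products of logarithmic length from products of length `2 ^ h`

The same as `ECD/IntFin.lean`, for an abstract family.
-/

set_option autoImplicit false

namespace Pool.Agent.Cov

open Finset Pool.Agent.Grz Pool.Agent.GAvg Pool.Agent.PTr Pool.Agent.MTr Pool.Agent.LPC
  Pool.Agent.ECD

/-- A family of groups with definable codes and definable products of `2 ^ h` elements. -/
structure PreFam (r : ℕ) where
  /-- the groups -/
  G : (Fin r → ℕ) → Type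
  /-- the multiplication -/
  grp : ∀ v, Group (G v)
  /-- the codes -/
  enc : ∀ v, G v → ℕ
  inj : ∀ v, Function.Injective (enc v)
  /-- a bound for the codes -/
  N : (Fin r → ℕ) → ℕ
  hN : DFun r N
  bd : ∀ v x, enc v x ≤ N v
  mem : Delta0 (r + 1) (fun w => ∃ x, enc (fun i => w i.succ) x = w 0)
  prod2 : ∀ {n : ℕ} {σ : Fin r → (Fin n → ℕ) → ℕ} {P : ∀ u : Fin n → ℕ, ℕ → G (fun i => σ i u)}
    {h M : (Fin n → ℕ) → ℕ}, (∀ i, DFun n (σ i)) →
    DFun (n + 1) (fun w => enc _ (P (fun i => w i.succ) (w 0))) → DFun n h → DFun n M →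
    (∀ u, 2 ^ h u ≤ 4 * (lg (M u) + 1)) →
    DFun n (fun u => enc _ ((List.range (2 ^ h u)).map fun i => P u i).prod)

attribute [instance] PreFam.grp

variable {r : ℕ} (Φ : PreFam r) {n : ℕ} {σ : Fin r → (Fin n → ℕ) → ℕ}

private theorem CovPre_mem (hσ : ∀ i, DFun n (σ i)) {z : (Fin n → ℕ) → ℕ} (hz : DFun n z) :
    Delta0 n (fun u => ∃ x, Φ.enc (fun i => σ i u) x = z u) := by
  have h := Φ.mem.subst (n := n) (h := Fin.cons z σ) (fun i => by
    refine Fin.cases ?_ (fun j => ?_) i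
    · exact hz
    · exact hσ j)
  exact h.of_iff fun u => Iff.rfl

private theorem CovPre_ex (v : Fin r → ℕ) : ∃ z, ∃ x, Φ.enc v x = z := ⟨_, 1, rfl⟩

open scoped Classical in
/-- the element with the code `z`, the element with the least code if there is none -/
private noncomputable def dc (v : Fin r → ℕ) (z : ℕ) : Φ.G v :=
  if h : ∃ x, Φ.enc v x = z then h.choose else (Nat.find_spec (CovPre_ex Φ v)).choose

private theorem enc_dc {v : Fin r → ℕ} {z : ℕ} (h : ∃ x, Φ.enc v x = z) :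
    Φ.enc v (dc Φ v z) = z := by
  rw [dc, dif_pos h]
  exact h.choose_spec

private theorem dc_enc (v : Fin r → ℕ) (x : Φ.G v) : dc Φ v (Φ.enc v x) = x :=
  Φ.inj v (enc_dc Φ ⟨x, rfl⟩)

private theorem dfun_dc (hσ : ∀ i, DFun n (σ i)) {z : (Fin n → ℕ) → ℕ} (hz : DFun n z) :
    DFun n (fun u => Φ.enc _ (dc Φ (fun i => σ i u) (z u))) := by
  classical
  have hσ1 : ∀ i, DFun (n + 1) (fun w : Fin (n + 1) → ℕ => σ i (fun j => w j.succ)) :=
    fun i => (hσ i).weak
  have hσ2 : ∀ i, DFun (n + 1 + 1) (fun w : Fin (n + 1 + 1) → ℕ =>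
    σ i (fun j => w j.succ.succ)) := fun i => (hσ i).weak.weak
  have h1 := CovPre_mem Φ (σ := fun i w => σ i (fun j => w j.succ)) hσ1 (DFun.proj 0)
  have h2 := CovPre_mem Φ (σ := fun i w => σ i (fun j => w j.succ.succ)) hσ2 (DFun.proj 0)
  have h3 := (CovPre_mem Φ hσ hz).rename (n := n + 1) (fun i => i.succ)
  have h4 : Delta0 (n + 1) (fun w => w 0 = z (fun j => w j.succ)) :=
    Delta0.eqFun (DFun.proj 0) hz.weak
  have h5 : Delta0 (n + 1) (fun w => ∀ y, y ≤ w 0 →
      ((∃ x, Φ.enc (fun i => σ i (fun j => w j.succ)) x = y) → y = w 0)) :=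
    Delta0.ballFun (P := fun y w => (∃ x, Φ.enc (fun i => σ i (fun j => w j.succ)) x = y) →
      y = w 0) (DFun.proj 0) (h2.imp (Delta0.eqFun (DFun.proj 0) (DFun.proj 1)))
  refine DFun.ofGraph (b := fun u => Φ.N (fun i => σ i u))
    (Φ.hN.comp hσ) (fun u => Φ.bd _ _)
    (((h3.and h4).or (h3.not.and (h1.and h5))).of_iff fun w => ?_)
  set u : Fin n → ℕ := fun j => w j.succ with hu
  by_cases h : ∃ x, Φ.enc (fun i => σ i u) x = z u
  · rw [enc_dc Φ h]
    constructor
    · intro h6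
      exact Or.inl ⟨h, h6⟩
    · rintro (⟨-, h6⟩ | ⟨h6, -⟩)
      · exact h6
      · exact absurd h h6
  · rw [dc, dif_neg h]
    have h6 := (Nat.find_spec (CovPre_ex Φ (fun i => σ i u))).choose_spec
    rw [h6]
    constructor
    · intro h7
      refine Or.inr ⟨h, ?_, fun y hy hx => ?_⟩
      · rw [h7]
        exact Nat.find_spec (CovPre_ex Φ (fun i => σ i u))
      · have h8 := Nat.find_min' (CovPre_ex Φ (fun i => σ i u)) hx
        omega
    · rintro (⟨h7, -⟩ | ⟨-, h7, h8⟩)
      · exact absurd h7 h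
      · have h9 := Nat.find_min' (CovPre_ex Φ (fun i => σ i u)) h7
        exact (h8 _ h9 (Nat.find_spec (CovPre_ex Φ (fun i => σ i u)))).symm

/-- products of two elements -/
theorem PreFam.mul_def (hσ : ∀ i, DFun n (σ i)) {P Q : ∀ u : Fin n → ℕ, Φ.G (fun i => σ i u)}
    (hP : DFun n (fun u => Φ.enc _ (P u))) (hQ : DFun n (fun u => Φ.enc _ (Q u))) :
    DFun n (fun u => Φ.enc _ (P u * Q u)) := by
  classical
  have h1 : DFun (n + 1) (fun w => if w 0 = 0 then Φ.enc _ (P fun i => w i.succ)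
      else Φ.enc _ (Q fun i => w i.succ)) :=
    DFun.ite (Delta0.eqFun (DFun.proj (n := n + 1) 0) (DFun.const 0)) hP.weak hQ.weak
  have h2 : DFun (n + 1) (fun w => Φ.enc _ (if w 0 = 0 then P fun i => w i.succ
      else Q fun i => w i.succ)) := by
    have h3 : (fun w : Fin (n + 1) → ℕ => Φ.enc _ (if w 0 = 0 then P fun i => w i.succ
        else Q fun i => w i.succ)) = fun w => if w 0 = 0 then Φ.enc _ (P fun i => w i.succ)
        else Φ.enc _ (Q fun i => w i.succ) := by
      funext w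
      split_ifs <;> rfl
    rw [h3]
    exact h1
  have h := Φ.prod2 (n := n) (σ := σ) (P := fun u i => if i = 0 then P u else Q u)
    (h := fun _ => 1) (M := fun _ => 1) hσ h2 (DFun.const 1) (DFun.const 1)
    (fun u => by
      have h4 : lg 1 = 0 := by decide
      rw [h4]
      norm_num)
  simpa [List.range_succ] using h

/-- the identity -/
theorem PreFam.one_def (hσ : ∀ i, DFun n (σ i)) :
    DFun n (fun u => Φ.enc (fun i => σ i u) (1 : Φ.G (fun i => σ i u))) := by
  have hσ1 : ∀ i, DFun (n + 1) (fun w : Fin (n + 1) → ℕ => σ i (fun j => w j.succ)) :=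
    fun i => (hσ i).weak
  have h1 := CovPre_mem Φ (σ := fun i w => σ i (fun j => w j.succ)) hσ1 (DFun.proj 0)
  have h2 := dfun_dc Φ (σ := fun i w => σ i (fun j => w j.succ)) hσ1 (DFun.proj 0)
  have h3 := Φ.mul_def hσ1 h2 h2
  refine DFun.ofGraph (b := fun u => Φ.N (fun i => σ i u))
    (Φ.hN.comp hσ) (fun u => Φ.bd _ _)
    ((h1.and (Delta0.eqFun h3 (DFun.proj 0))).of_iff fun w => ?_)
  constructor
  · intro h
    refine ⟨⟨1, h.symm⟩, ?_⟩
    rw [h]
    show Φ.enc _ (dc Φ _ (Φ.enc _ 1) * dc Φ _ (Φ.enc _ 1)) = _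
    rw [dc_enc, mul_one]
  · rintro ⟨⟨x, hx⟩, h4⟩
    rw [← hx] at h4 ⊢
    rw [dc_enc] at h4
    have h5 := Φ.inj _ h4
    rw [mul_eq_left.1 h5]

/-- products of length at most `lg M + 1` -/
theorem PreFam.prod1' {P : ∀ u : Fin n → ℕ, ℕ → Φ.G (fun i => σ i u)} {L M : (Fin n → ℕ) → ℕ}
    (hσ : ∀ i, DFun n (σ i))
    (hP : DFun (n + 1) (fun w => Φ.enc _ (P (fun i => w i.succ) (w 0)))) (hL : DFun n L)
    (hM : DFun n M) (hLM : ∀ u, L u ≤ lg (M u) + 1) :
    DFun n (fun u => Φ.enc _ ((List.range (L u)).map fun i => P u i).prod) := by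
  classical
  have hσ1 : ∀ i, DFun (n + 1) (fun w : Fin (n + 1) → ℕ => σ i (fun j => w j.succ)) :=
    fun i => (hσ i).weak
  have hP' : DFun (n + 1) (fun w => Φ.enc _ (if w 0 < L (fun i => w i.succ) then
      P (fun i => w i.succ) (w 0) else 1)) := by
    have h1 := DFun.ite (Delta0.ltFun (DFun.proj (n := n + 1) 0) hL.weak) hP
      (Φ.one_def (n := n + 1) (σ := fun i w => σ i (fun j => w j.succ)) hσ1)
    have e : (fun w : Fin (n + 1) → ℕ => Φ.enc (fun i => σ i (fun j => w j.succ))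
        (if w 0 < L (fun i => w i.succ) then P (fun i => w i.succ) (w 0) else 1)) =
        fun w => if w 0 < L (fun i => w i.succ) then
          Φ.enc (fun i => σ i (fun j => w j.succ)) (P (fun i => w i.succ) (w 0))
          else Φ.enc (fun i => σ i (fun j => w j.succ)) 1 := by
      funext w
      split_ifs <;> rfl
    rw [e]
    exact h1
  have h2 := Φ.prod2 (P := fun u i => if i < L u then P u i else 1)
    (h := fun u => lg (L u) + 1) hσ hP' ((DFun.lg hL).add (DFun.const 1)) hM (fun u => by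
      have h3 := hLM u
      rcases Nat.eq_zero_or_pos (L u) with h0 | h0
      · rw [h0]
        have h4 : lg 0 = 0 := by decide
        rw [h4]
        omega
      · have h4 : 2 ^ lg (L u) ≤ L u := Nat.pow_log_le_self 2 h0.ne'
        rw [pow_succ]
        omega)
  refine (show (fun u => Φ.enc (fun i => σ i u) ((List.range (L u)).map fun i =>
    P u i).prod) = _ from ?_) ▸ h2
  funext u
  congr 1
  exact (prod_trunc (P u) (lt_two_pow_lg (L u)).le).symm

/-- a family of groups with definable products -/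
noncomputable def PreFam.toG {r : ℕ} (Φ : PreFam r) : GFam r where
  G := Φ.G
  grp := Φ.grp
  enc := Φ.enc
  inj := Φ.inj
  N := Φ.N
  hN := Φ.hN
  bd := Φ.bd
  mem := Φ.mem
  prod1 hσ hP hL hM hLM := Φ.prod1' hσ hP hL hM hLM

end Pool.Agent.Cov
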