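import Pool.Agent.Cov.Tree
import Pool.Agent.Cov.Pre
import Pool.Agent.ECD.IntProd

/-!
# Products in families of groups with representatives
-/

set_option autoImplicit false

namespace Pool.Agent.Cov

open Finset Pool.Agent.Grz Pool.Agent.GAvg Pool.Agent.PTr Pool.Agent.MTr Pool.Agent.LPC
  Pool.Agent.ECD

variable {r d e τ : ℕ} (Φ : CovFam r d e τ)

/-- products of `2 ^ h` elements -/
theorem CovFam.prod2 {n : ℕ} {σ : Fin r → (Fin n → ℕ) → ℕ}
    {P : ∀ u : Fin n → ℕ, ℕ → Φ.G (fun i => σ i u)} {h M : (Fin n → ℕ) → ℕ}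
    (hσ : ∀ i, DFun n (σ i))
    (hP : DFun (n + 1) (fun w => Φ.enc _ (P (fun i => w i.succ) (w 0)))) (hh : DFun n h)
    (hM : DFun n M) (hhM : ∀ u, 2 ^ h u ≤ 4 * (lg (M u) + 1)) :
    DFun n (fun u => Φ.enc _ ((List.range (2 ^ h u)).map fun i => P u i).prod) := by
  classical
  have hσ1 : ∀ i, DFun (n + 1) (fun w : Fin (n + 1) → ℕ => σ i (fun j => w j.succ)) :=
    fun i => (hσ i).weak
  -- the data in the variables `u`
  obtain ⟨m, hmd⟩ : ∃ m : (Fin n → ℕ) → ℕ, m = fun u => Φ.m (fun i => σ i u) := ⟨_, rfl⟩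
  have hm : DFun n m := by rw [hmd]; exact Φ.hm.comp hσ
  have hm0 : ∀ u, 0 < m u := fun u => by rw [hmd]; exact Φ.mpos _
  obtain ⟨c, hcd⟩ : ∃ c : Fin e → (Fin n → ℕ) → ℕ, c = fun k u => Φ.c k (fun i => σ i u) :=
    ⟨_, rfl⟩
  have hc : ∀ k, DFun n (c k) := fun k => by rw [hcd]; exact (Φ.hc k).comp hσ
  obtain ⟨lf, hlfd⟩ : ∃ lf : ℕ → (Fin n → ℕ) → Fin d → ℕ,
      lf = fun s u (i : Fin d) => Φ.enc (fun i => σ i u) (P u s) / m u ^ (i : ℕ) % m u :=
    ⟨_, rfl⟩
  have hlf : ∀ i, DFun (n + 1) (fun w => lf (w 0) (fun k => w k.succ) i) := by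
    intro i
    rw [hlfd]
    exact DFun.modAny (DFun.divPos hP (DFun.powConst hm.weak _)
      fun w => pow_pos (hm0 _) _) hm.weak
  obtain ⟨B, hBd⟩ : ∃ B : (Fin n → ℕ) → ℕ, B = fun u => m u + ∑ k, c k u := ⟨_, rfl⟩
  have hB : DFun n B := by rw [hBd]; exact hm.add (DFun.finSum _ hc)
  have hcB : ∀ k u, c k u ≤ B u := by
    intro k u
    rw [hBd]
    exact (Finset.single_le_sum (f := fun k => c k u) (fun _ _ => Nat.zero_le _)
      (mem_univ k)).trans (Nat.le_add_left _ _)
  have hmB : ∀ u, m u ≤ B u := fun u => by rw [hBd]; exact Nat.le_add_right _ _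
  have hlB : ∀ s u i, lf s u i ≤ B u := by
    intro s u i
    refine le_trans ?_ (hmB u)
    rw [hlfd]
    exact (Nat.mod_lt _ (hm0 u)).le
  have hhb : ∀ u, 2 ^ h u ≤ ECD.lp (M u) 2 := by
    intro u
    refine (hhM u).trans ?_
    rw [ECD.lp]
    nlinarith
  -- the bound for the code of the pieces
  obtain ⟨EB, hEBd⟩ : ∃ EB : (Fin n → ℕ) → ℕ, EB = fun u => (2 * (M u + 1)) ^ (4 * τ) :=
    ⟨_, rfl⟩
  have hEB : DFun n EB := by
    rw [hEBd]
    exact DFun.powConst ((DFun.const 2).mul (hM.add (DFun.const 1))) _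
  have hEle : ∀ u E, E < 2 ^ (τ * 2 ^ h u) → E ≤ EB u := by
    intro u E hE
    refine hE.le.trans ?_
    rw [hEBd]
    simp only
    have h1 : 2 ^ (lg (M u)) ≤ M u + 1 := by
      rcases Nat.eq_zero_or_pos (M u) with h0 | h0
      · rw [h0]
        decide
      · exact (Nat.pow_log_le_self 2 h0.ne').trans (Nat.le_succ _)
    calc 2 ^ (τ * 2 ^ h u) ≤ 2 ^ (τ * (4 * (lg (M u) + 1))) :=
          Nat.pow_le_pow_right (by norm_num) (Nat.mul_le_mul_left _ (hhM u))
      _ = (2 ^ (lg (M u) + 1)) ^ (4 * τ) := by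
          rw [← pow_mul]
          congr 1
          ring
      _ ≤ (2 * (M u + 1)) ^ (4 * τ) := by
          refine Nat.pow_le_pow_left ?_ _
          rw [pow_succ]
          omega
  -- the pieces are right: variables `(E, u)`
  have hF : Delta0 (n + 1) (fun w => ∀ j s, j < h (fun j => w j.succ) →
      s < 2 ^ (h (fun j => w j.succ) - 1 - j) →
      PcOK Φ.F Φ.T (fun k => (c k (fun j => w j.succ) : ℤ))
        (fun s i => (lf s (fun j => w j.succ) i : ℤ)) (h (fun j => w j.succ)) (w 0)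
        (m (fun j => w j.succ)) j s) :=
    flags_def (r := n + 1) (K := 2) Φ.F Φ.T
      (c := fun k w => (c k (fun j => w j.succ) : ℤ))
      (leaf := fun s w i => (lf s (fun j => w j.succ) i : ℤ)) (E := fun w => w 0)
      (N := fun w => M (fun j => w j.succ)) (h := fun w => h (fun j => w j.succ))
      (m := fun w => m (fun j => w j.succ)) (B := fun w => B (fun j => w j.succ))
      (fun k => ZF.nat (hc k).weak)
      (fun i => ZF.nat ((hlf i).comp (n := n + 1 + 1)
        (h := Fin.cons (fun w => w 0) (fun j w => w j.succ.succ)) (fun j => by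
          refine Fin.cases ?_ (fun j => ?_) j
          · exact DFun.proj _
          · exact DFun.proj _)))
      (DFun.proj 0) hM.weak hh.weak hm.weak hB.weak (fun w => hm0 _)
      (fun w => hhb _) (fun k w => by simpa using hcB k _)
      (fun s w i => by simpa using hlB s _ i)
  -- the value of the tree is the vector with the code `y`: variables `(E, y, u)`
  have hX : ∀ i : Fin d, Delta0 (n + 1 + 1) (fun w => (m (fun j => w j.succ.succ) : ℤ) ∣
      ltr Φ.F (fun k => (c k (fun j => w j.succ.succ) : ℤ))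
        (fun s i => (lf s (fun j => w j.succ.succ) i : ℤ))
        (h (fun j => w j.succ.succ)) (w 0) (h (fun j => w j.succ.succ)) 0 i -
        ((w 1 / m (fun j => w j.succ.succ) ^ (i : ℕ) % m (fun j => w j.succ.succ) : ℕ) : ℤ)) := by
    intro i
    have hx2 : DFun (n + 1 + 1) (fun w => w 1 / m (fun j => w j.succ.succ) ^ (i : ℕ) %
        m (fun j => w j.succ.succ)) :=
      DFun.modAny (DFun.divPos (DFun.proj 1) (DFun.powConst hm.weak.weak _)
        fun w => pow_pos (hm0 _) _) hm.weak.weak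
    have h1 := node_dvd (r := n + 1 + 1) (K := 2) (a := 1) (ι := 1) Φ.F
      (c := fun k w => (c k (fun j => w j.succ.succ) : ℤ))
      (leaf := fun s w i => (lf s (fun j => w j.succ.succ) i : ℤ)) (E := fun w => w 0)
      (N := fun w => M (fun j => w j.succ.succ))
      (h := fun w => h (fun j => w j.succ.succ))
      (m := fun w => m (fun j => w j.succ.succ))
      (B := fun w => B (fun j => w j.succ.succ))
      (jj := fun _ w => h (fun j => w j.succ.succ)) (ss := fun _ _ => 0)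
      (x := ![fun w => ((w 1 / m (fun j => w j.succ.succ) ^ (i : ℕ) %
          m (fun j => w j.succ.succ) : ℕ) : ℤ)])
      (MvPolynomial.X (Sum.inl (0, i)) - MvPolynomial.X (Sum.inr 0))
      (fun k => ZF.nat (hc k).weak.weak)
      (fun i => ZF.nat ((hlf i).comp (n := n + 1 + 1 + 1)
        (h := Fin.cons (fun w => w 0) (fun j w => w j.succ.succ.succ)) (fun j => by
          refine Fin.cases ?_ (fun j => ?_) j
          · exact DFun.proj _
          · exact DFun.proj _)))
      (DFun.proj 0) hM.weak.weak hh.weak.weak hm.weak.weak hB.weak.weak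
      (fun _ => hh.weak.weak) (fun _ => DFun.const 0)
      (fun k => by
        refine Fin.cases ?_ (fun k => k.elim0) k
        exact ZF.nat hx2)
      (fun w => hm0 _) (fun w => hhb _) (fun _ w => le_rfl) (fun k w => by simpa using hcB k _)
      (fun s w i => by simpa using hlB s _ i)
      (fun k w => by
        refine Fin.cases ?_ (fun k => k.elim0) k
        simp only [Matrix.cons_val_zero, Int.natAbs_natCast]
        exact (Nat.mod_lt _ (hm0 _)).le.trans (hmB _))
    refine h1.of_iff fun w => ?_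
    simp
  -- equality of classes: variables `(z, y, u)`
  have hEQ : Delta0 (n + 1 + 1) (fun w =>
      vc (Φ.m fun i => σ i (fun j => w j.succ.succ)) d (w 0) ∈
        Φ.X (fun i => σ i (fun j => w j.succ.succ)) ∧
      vc (Φ.m fun i => σ i (fun j => w j.succ.succ)) d (w 1) ∈
        Φ.X (fun i => σ i (fun j => w j.succ.succ)) ∧
      Φ.cls (fun i => σ i (fun j => w j.succ.succ))
        (vc (Φ.m fun i => σ i (fun j => w j.succ.succ)) d (w 0)) =
      Φ.cls (fun i => σ i (fun j => w j.succ.succ))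
        (vc (Φ.m fun i => σ i (fun j => w j.succ.succ)) d (w 1))) := by
    have h1 := Φ.dE.subst (n := n + 1 + 1)
      (h := Fin.cons (fun w => w 0) (Fin.cons (fun w => w 1)
        (fun i w => σ i (fun j => w j.succ.succ)))) (fun i => by
        refine Fin.cases ?_ (fun i => ?_) i
        · exact DFun.proj 0
        · refine Fin.cases ?_ (fun i => ?_) i
          · exact DFun.proj 1
          · exact (hσ i).weak.weak)
    exact h1
  obtain ⟨EQ, hEQd⟩ : ∃ EQ : ℕ → ℕ → (Fin n → ℕ) → Prop, EQ = fun z y u =>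
      vc (Φ.m fun i => σ i u) d z ∈ Φ.X (fun i => σ i u) ∧
      vc (Φ.m fun i => σ i u) d y ∈ Φ.X (fun i => σ i u) ∧
      Φ.cls (fun i => σ i u) (vc (Φ.m fun i => σ i u) d z) =
      Φ.cls (fun i => σ i u) (vc (Φ.m fun i => σ i u) d y) := ⟨_, rfl⟩
  have hEQ' : Delta0 (n + 1 + 1) (fun w => EQ (w 0) (w 1) (fun j => w j.succ.succ)) := by
    rw [hEQd]
    exact hEQ
  -- `z` is the least code of the class of `y`: variables `(y, z, u)`
  have hMIN : Delta0 (n + 1 + 1) (fun w => EQ (w 1) (w 0) (fun j => w j.succ.succ) ∧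
      ∀ z', z' ≤ w 1 → (z' < w 1 → ¬ EQ z' (w 0) (fun j => w j.succ.succ))) := by
    refine Delta0.and ?_ (Delta0.ballFun (P := fun z' w => z' < w 1 →
      ¬ EQ z' (w 0) (fun j => w j.succ.succ)) (DFun.proj 1) ?_)
    · exact hEQ'.rename (n := n + 1 + 1) (Fin.cons 1 (Fin.cons 0 fun j => j.succ.succ))
    · refine (Delta0.ltFun (DFun.proj 0) (DFun.proj (Fin.succ 1))).imp (Delta0.not ?_)
      exact hEQ'.rename (n := n + 1 + 1 + 1)
        (Fin.cons 0 (Fin.cons (Fin.succ 0) fun j => j.succ.succ.succ))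
  have hrel : Delta0 (n + 1) (fun w => ∃ y, y ≤ m (fun j => w j.succ) ^ d ∧
      ((EQ (w 0) y (fun j => w j.succ) ∧
        ∀ z', z' ≤ w 0 → (z' < w 0 → ¬ EQ z' y (fun j => w j.succ))) ∧
      ∃ E, E ≤ EB (fun j => w j.succ) ∧
        ((∀ j s, j < h (fun j => w j.succ) → s < 2 ^ (h (fun j => w j.succ) - 1 - j) →
          PcOK Φ.F Φ.T (fun k => (c k (fun j => w j.succ) : ℤ))
            (fun s i => (lf s (fun j => w j.succ) i : ℤ)) (h (fun j => w j.succ)) E
            (m (fun j => w j.succ)) j s) ∧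
        ∀ i : Fin d, (m (fun j => w j.succ) : ℤ) ∣
          ltr Φ.F (fun k => (c k (fun j => w j.succ) : ℤ))
            (fun s i => (lf s (fun j => w j.succ) i : ℤ))
            (h (fun j => w j.succ)) E (h (fun j => w j.succ)) 0 i -
            ((y / m (fun j => w j.succ) ^ (i : ℕ) % m (fun j => w j.succ) : ℕ) : ℤ)))) := by
    refine Delta0.bexFun (b := fun w => m (fun j => w j.succ) ^ d)
      (P := fun y w => (EQ (w 0) y (fun j => w j.succ) ∧
        ∀ z', z' ≤ w 0 → (z' < w 0 → ¬ EQ z' y (fun j => w j.succ))) ∧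
      ∃ E, E ≤ EB (fun j => w j.succ) ∧
        ((∀ j s, j < h (fun j => w j.succ) → s < 2 ^ (h (fun j => w j.succ) - 1 - j) →
          PcOK Φ.F Φ.T (fun k => (c k (fun j => w j.succ) : ℤ))
            (fun s i => (lf s (fun j => w j.succ) i : ℤ)) (h (fun j => w j.succ)) E
            (m (fun j => w j.succ)) j s) ∧
        ∀ i : Fin d, (m (fun j => w j.succ) : ℤ) ∣
          ltr Φ.F (fun k => (c k (fun j => w j.succ) : ℤ))
            (fun s i => (lf s (fun j => w j.succ) i : ℤ))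
            (h (fun j => w j.succ)) E (h (fun j => w j.succ)) 0 i -
            ((y / m (fun j => w j.succ) ^ (i : ℕ) % m (fun j => w j.succ) : ℕ) : ℤ)))
      (DFun.powConst hm.weak d) (Delta0.and hMIN ?_)
    refine Delta0.bexFun (b := fun w => EB (fun j => w j.succ.succ))
      (P := fun E w => (∀ j s, j < h (fun j => w j.succ.succ) →
          s < 2 ^ (h (fun j => w j.succ.succ) - 1 - j) →
          PcOK Φ.F Φ.T (fun k => (c k (fun j => w j.succ.succ) : ℤ))
            (fun s i => (lf s (fun j => w j.succ.succ) i : ℤ)) (h (fun j => w j.succ.succ)) E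
            (m (fun j => w j.succ.succ)) j s) ∧
        ∀ i : Fin d, (m (fun j => w j.succ.succ) : ℤ) ∣
          ltr Φ.F (fun k => (c k (fun j => w j.succ.succ) : ℤ))
            (fun s i => (lf s (fun j => w j.succ.succ) i : ℤ))
            (h (fun j => w j.succ.succ)) E (h (fun j => w j.succ.succ)) 0 i -
            ((w 0 / m (fun j => w j.succ.succ) ^ (i : ℕ) % m (fun j => w j.succ.succ) : ℕ) : ℤ))
      hEB.weak.weak (Delta0.and ?_ (Delta0.allOf fun i => ?_))
    · exact hF.rename (n := n + 1 + 1 + 1) (Fin.cons 0 fun j => j.succ.succ.succ)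
    · exact (hX i).rename (n := n + 1 + 1 + 1)
        (Fin.cons 0 (Fin.cons (Fin.succ 0) fun j => j.succ.succ.succ))
  refine DFun.ofGraph (b := fun u => m u ^ d) (DFun.powConst hm d) (fun u => ?_)
    (hrel.of_iff fun w => ?_)
  · rw [hmd]
    exact (Φ.enc_lt _ _).le
  set u : Fin n → ℕ := fun j => w j.succ with hu
  -- abbreviations
  have ec : (fun k => (c k u : ℤ)) = fun k => (Φ.c k (fun i => σ i u) : ℤ) := by
    funext k
    rw [hcd]
  have em : m u = Φ.m (fun i => σ i u) := by rw [hmd]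
  have hmp : 0 < Φ.m (fun i => σ i u) := Φ.mpos _
  have elf : ∀ s, (fun i => (((lf s u i : ℕ) : ℤ) : ZMod (Φ.m (fun i => σ i u)))) =
      vc (Φ.m (fun i => σ i u)) d (Φ.enc (fun i => σ i u) (P u s)) := by
    intro s
    funext i
    rw [hlfd, hmd, vc, Int.cast_natCast, ZMod.natCast_mod]
  have epr : ∀ E, (∀ j s, j < h u → s < 2 ^ (h u - 1 - j) →
      PcOK Φ.F Φ.T (fun k => (c k u : ℤ)) (fun s i => (lf s u i : ℤ)) (h u) E (m u) j s) →
      (fun i => ((ltr Φ.F (fun k => (c k u : ℤ)) (fun s i => (lf s u i : ℤ)) (h u) E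
          (h u) 0 i : ℤ) : ZMod (Φ.m (fun i => σ i u)))) ∈ Φ.X (fun i => σ i u) ∧
        Φ.cls (fun i => σ i u) (fun i => ((ltr Φ.F (fun k => (c k u : ℤ))
          (fun s i => (lf s u i : ℤ)) (h u) E (h u) 0 i : ℤ) :
          ZMod (Φ.m (fun i => σ i u)))) =
          ((List.range (2 ^ h u)).map fun i => P u i).prod := by
    intro E hE
    rw [ec, em] at hE
    have h1 := ltr_cov Φ (fun i => σ i u) (fun s i => (lf s u i : ℤ)) (P u) (fun s => by
      rw [elf s]
      exact Φ.enc_spec _ _) hE (h u) 0 le_rfl (by simp)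
    rw [ec]
    simpa using h1
  have hdv : ∀ E y, (∀ i : Fin d, (m u : ℤ) ∣
      ltr Φ.F (fun k => (c k u : ℤ)) (fun s i => (lf s u i : ℤ)) (h u) E (h u) 0 i -
        ((y / m u ^ (i : ℕ) % m u : ℕ) : ℤ)) ↔
      (fun i => ((ltr Φ.F (fun k => (c k u : ℤ)) (fun s i => (lf s u i : ℤ)) (h u) E
          (h u) 0 i : ℤ) : ZMod (Φ.m (fun i => σ i u)))) = vc (Φ.m (fun i => σ i u)) d y := by
    intro E y
    rw [funext_iff]
    refine forall_congr' fun i => ?_
    rw [em, ← ZMod.intCast_zmod_eq_zero_iff_dvd, Int.cast_sub, sub_eq_zero, vc]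
    have e1 : (((y / Φ.m (fun i => σ i u) ^ (i : ℕ) % Φ.m (fun i => σ i u) : ℕ) : ℤ) :
        ZMod (Φ.m (fun i => σ i u))) =
        ((y / Φ.m (fun i => σ i u) ^ (i : ℕ) : ℕ) : ZMod (Φ.m (fun i => σ i u))) := by
      rw [Int.cast_natCast, ZMod.natCast_mod]
    rw [e1]
  constructor
  · intro h0
    obtain ⟨E, hE1, hE2⟩ := exists_flags Φ.F Φ.T (fun k => (c k u : ℤ))
      (fun s i => (lf s u i : ℤ)) (h u) (m u)
    obtain ⟨hz1, hz2⟩ := epr E hE2
    set t : Fin d → ZMod (Φ.m (fun i => σ i u)) := fun i =>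
      ((ltr Φ.F (fun k => (c k u : ℤ)) (fun s i => (lf s u i : ℤ)) (h u) E
          (h u) 0 i : ℤ) : ZMod (Φ.m (fun i => σ i u))) with ht
    have hty : vc (Φ.m (fun i => σ i u)) d (vcode t) = t := vc_vcode hmp t
    have hs := Φ.enc_spec (fun i => σ i u) ((List.range (2 ^ h u)).map fun i => P u i).prod
    refine ⟨vcode t, ?_, ⟨?_, ?_⟩, E, hEle _ _ hE1, hE2, (hdv E (vcode t)).2 hty.symm⟩
    · rw [em]
      exact (vcode_lt hmp t).le
    · rw [hEQd]
      simp only
      rw [hty, h0]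
      exact ⟨hs.1, hz1, hs.2.trans hz2.symm⟩
    · intro z' _ hz' h1
      rw [hEQd] at h1
      rw [hty] at h1
      have h2 := Φ.enc_min (fun i => σ i u) ((List.range (2 ^ h u)).map fun i => P u i).prod
        h1.1 (h1.2.2.trans hz2)
      rw [← h0] at h2
      exact absurd hz' (not_lt.2 h2)
  · rintro ⟨y, -, ⟨h1, h2⟩, E, -, hE2, h3⟩
    obtain ⟨hz1, hz2⟩ := epr E hE2
    have h4 := (hdv E y).1 h3
    rw [h4] at hz1 hz2
    rw [hEQd] at h1 h2
    simp only at h1 h2
    have hs := Φ.enc_spec (fun i => σ i u) ((List.range (2 ^ h u)).map fun i => P u i).prod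
    have h5 := Φ.enc_min (fun i => σ i u) ((List.range (2 ^ h u)).map fun i => P u i).prod
      h1.1 (h1.2.2.trans hz2)
    by_contra h6
    exact h2 _ h5 (lt_of_le_of_ne h5 (Ne.symm h6)) ⟨hs.1, h1.2.1, hs.2.trans hz2.symm⟩

/-- the abstract family -/
noncomputable def CovFam.pre : PreFam r where
  G := Φ.G
  grp := Φ.grp
  enc := Φ.enc
  inj v := Φ.enc_inj v
  N v := Φ.m v ^ d
  hN := DFun.powConst Φ.hm d
  bd v g := (Φ.enc_lt v g).le
  mem := Φ.mem
  prod2 hσ hP hh hM hhM := Φ.prod2 hσ hP hh hM hhM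

end Pool.Agent.Cov
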