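import Pool.Agent.Cov.Prod2
import Pool.Agent.ApC.Card

/-!
# The order of a commutative group with representatives is definable (interface)
-/

set_option autoImplicit false

namespace Pool.Agent.Cov

open Finset Pool.Agent.Grz Pool.Agent.GAvg Pool.Agent.PTr Pool.Agent.MTr Pool.Agent.LPC
  Pool.Agent.ECD

variable {r d e τ : ℕ} (Φ : CovFam r d e τ)

/-- a family of groups with representatives as a family of groups with definable products -/
noncomputable def CovFam.toG : GFam r := Φ.pre.toG

theorem CovFam.toG_G (v : Fin r → ℕ) : Φ.toG.G v = Φ.G v := rfl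

/-- **The order of a commutative group with representatives is definable.** -/
theorem CovFam.card (hc : ∀ v (a b : Φ.G v), a * b = b * a) :
    DFun r (fun v => Nat.card (Φ.G v)) := by
  have h : ∀ v, Group.IsNilpotent (Φ.toG.G v) := fun v => by
    have h1 : @Group.IsNilpotent (Φ.G v) (Φ.grp v) :=
      @CommGroup.isNilpotent (Φ.G v) { Φ.grp v with mul_comm := hc v }
    exact h1
  exact ApC.card_nil Φ.toG h (σ := fun i v => v i) fun i => DFun.proj i

end Pool.Agent.Cov
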