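import Pool.Agent.Cov.Defs
import Pool.Agent.ECD.IntTree

/-!
# With the right pieces the tree computes a representative of the product
-/

set_option autoImplicit false

namespace Pool.Agent.Cov

open Finset Pool.Agent.Grz Pool.Agent.GAvg Pool.Agent.PTr Pool.Agent.MTr Pool.Agent.LPC
  Pool.Agent.ECD

theorem ltr_cov {r d e τ : ℕ} (Φ : CovFam r d e τ) (v : Fin r → ℕ) (leaf : ℕ → Fin d → ℤ)
    (g : ℕ → Φ.G v) (hleaf : ∀ s, (fun i => ((leaf s i : ℤ) : ZMod (Φ.m v))) ∈ Φ.X v ∧
      Φ.cls v (fun i => ((leaf s i : ℤ) : ZMod (Φ.m v))) = g s)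
    {h E : ℕ} (hE : ∀ j s, j < h → s < 2 ^ (h - 1 - j) →
      PcOK Φ.F Φ.T (fun k => (Φ.c k v : ℤ)) leaf h E (Φ.m v) j s) :
    ∀ j s, j ≤ h → s < 2 ^ (h - j) →
      (fun i => ((ltr Φ.F (fun k => (Φ.c k v : ℤ)) leaf h E j s i : ℤ) : ZMod (Φ.m v))) ∈
        Φ.X v ∧
      Φ.cls v (fun i => ((ltr Φ.F (fun k => (Φ.c k v : ℤ)) leaf h E j s i : ℤ) :
        ZMod (Φ.m v))) = ((List.range (2 ^ j)).map fun i => g (s * 2 ^ j + i)).prod := by
  intro j
  induction j with
  | zero =>
    intro s _ _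
    have h1 := hleaf s
    simpa [ltr, tr] using h1
  | succ j ih =>
    intro s hj hs
    have hs1 : 2 * s < 2 ^ (h - j) ∧ 2 * s + 1 < 2 ^ (h - j) := by
      have e1 : h - j = (h - (j + 1)) + 1 := by omega
      rw [e1, pow_succ]
      omega
    obtain ⟨hx1, hx2⟩ := ih (2 * s) (by omega) hs1.1
    obtain ⟨hy1, hy2⟩ := ih (2 * s + 1) (by omega) hs1.2
    have hok := hE j s (by omega) (by rwa [show h - 1 - j = h - (j + 1) by omega])
    set c : Fin e → ℤ := fun k => (Φ.c k v : ℤ) with hc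
    set f : ℤ →+* ZMod (Φ.m v) := Int.castRingHom (ZMod (Φ.m v)) with hf
    set x : Fin d → ZMod (Φ.m v) := fun i => f (ltr Φ.F c leaf h E j (2 * s) i) with hx
    set y : Fin d → ZMod (Φ.m v) := fun i => f (ltr Φ.F c leaf h E j (2 * s + 1) i) with hy
    obtain ⟨hz1, hz2⟩ := Φ.law v x y hx1 hy1
    have hlaw : lawOf Φ.F (pc τ h E j s) =
        Φ.F (pat Φ.T (fun k => (Φ.c k v : ZMod (Φ.m v))) x y) := by
      refine lawOf_eq Φ.F fun k => (hok k).trans ?_
      rw [← ZMod.intCast_zmod_eq_zero_iff_dvd]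
      show f _ = 0 ↔ _
      rw [aeval_map, pat]
      refine iff_of_eq (congrArg (· = 0) ?_)
      congr 2
      funext k
      rcases k with k | k | k
      · rfl
      · rfl
      · simp [hf, hc]
    have hprod : ((List.range (2 ^ (j + 1))).map fun i => g (s * 2 ^ (j + 1) + i)).prod =
        ((List.range (2 ^ j)).map fun i => g (2 * s * 2 ^ j + i)).prod *
          ((List.range (2 ^ j)).map fun i => g ((2 * s + 1) * 2 ^ j + i)).prod := by
      rw [show 2 ^ (j + 1) = 2 ^ j + 2 ^ j by ring, List.range_add, List.map_append,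
        List.prod_append, List.map_map]
      congr 2
      · refine List.map_congr_left fun i _ => ?_
        congr 1
        ring
      · refine List.map_congr_left fun i _ => ?_
        simp only [Function.comp_apply]
        congr 1
        ring
    have hval : (fun i => ((ltr Φ.F c leaf h E (j + 1) s i : ℤ) : ZMod (Φ.m v))) =
        (Φ.F (pat Φ.T (fun k => (Φ.c k v : ZMod (Φ.m v))) x y)).ev
          (fun k => (Φ.c k v : ZMod (Φ.m v))) x y := by
      funext i
      show f ((lawOf Φ.F (pc τ h E j s)).ev c (ltr Φ.F c leaf h E j (2 * s))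
        (ltr Φ.F c leaf h E j (2 * s + 1)) i) = _
      rw [ev_map, hlaw]
      congr 2
      funext k
      simp [hf, hc]
    rw [hval]
    refine ⟨hz1, hz2.trans ?_⟩
    rw [hprod, ← hx2, ← hy2]
    rfl

end Pool.Agent.Cov
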